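import Pool.Agent.Lib_helper8.Ebe.Tab

/-!
# Block `wAP`
-/

namespace Pool.Agent.Lib_helper97.Ebe

open MvPolynomial Module Pool.Agent.Lib_helper26.Ebe Pool.Agent.Lib_helper26.SOS

theorem ap_choose (a : ℕ) : 2 * a.choose 2 + a = a * a := by
  induction a with
  | zero => simp
  | succ a ih =>
    rw [Nat.choose_succ_succ' a 1, Nat.choose_one_right]
    nlinarith

theorem ap_sec {n ρ : ℕ} (hn : 2 ≤ n)
    (h : ∃ k, 1 ≤ k ∧ k < n ∧ k + 2 * ((n - 1) / k) ≤ ρ) : 8 * n ≤ (ρ + 2) ^ 2 := by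
  obtain ⟨k, hk1, hkn, h⟩ := h
  have h1 : n - 1 < k * ((n - 1) / k + 1) := Nat.lt_mul_div_succ _ hk1
  generalize (n - 1) / k = d at h h1
  have h2 : n ≤ k * (d + 1) := by omega
  zify at h h2 ⊢
  have hk : (1 : ℤ) ≤ k := by exact_mod_cast hk1
  nlinarith [sq_nonneg ((ρ : ℤ) + 2 - 2 * k), mul_nonneg (by linarith : (0 : ℤ) ≤ k)
    (by linarith : (0 : ℤ) ≤ (ρ : ℤ) - k - 2 * d)]

theorem ap_main {n m ρ σ β q c : ℕ} (hρ : ρ < n) (hβ : 1 ≤ β) (hρ2 : 2 ≤ ρ)
    (hqc : ρ = q + c)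
    (h1 : n * β ≤ σ) (h2 : n * ρ ≤ m + σ + n * β)
    (h3 : ∀ a, q ≤ a → a ≤ ρ → σ ≤ a.choose 2 + (ρ - a + 1).choose 2)
    (h4 : c + 4 ≤ q → ∃ q', q ≤ q' ∧ q' ≤ ρ ∧ q'.choose 2 + (n - q') * β ≤ σ) :
    2 * (n * ρ) ≤ 2 * m + ρ ^ 2 + 3 := by
  by_cases hq : c + 4 ≤ q
  · obtain ⟨x, hx1, hx2, hx3⟩ := h4 hq
    have h5 := h3 x hx1 hx2
    obtain ⟨e, he⟩ : ∃ e, ρ = x + e := ⟨ρ - x, by omega⟩
    have he' : ρ - x + 1 = e + 1 := by omega
    rw [he'] at h5
    have hc1 := ap_choose x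
    have hc2 := ap_choose (e + 1)
    obtain ⟨v, hv⟩ : ∃ v, n = x + v := ⟨n - x, by omega⟩
    have hv' : n - x = v := by omega
    rw [hv'] at hx3
    have hev : e + 1 ≤ v := by omega
    have hex : e + 4 ≤ x := by omega
    generalize x.choose 2 = X at *
    generalize (e + 1).choose 2 = Y at *
    -- v β ≤ Y
    have h6 : v * β ≤ Y := by omega
    -- 2 β ≤ e
    have h7 : 2 * β ≤ e := by
      by_contra hlt
      push Not at hlt
      have h8 : (e + 1) * (e + 1) ≤ (e + 1) * (2 * β) := Nat.mul_le_mul_left _ (by omega)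
      have h9 : (e + 1) * (2 * β) ≤ v * (2 * β) := Nat.mul_le_mul_right _ hev
      nlinarith
    -- 2 n β ≤ 2 x e
    have h8 : 2 * (n * β) ≤ 2 * (x * e) := by
      have h9 : x * (2 * β) ≤ x * e := Nat.mul_le_mul_left _ h7
      have h10 : e * (e + 1) ≤ e * x := Nat.mul_le_mul_left _ (by omega)
      rw [hv]
      nlinarith
    subst he
    nlinarith
  · push Not at hq
    have h5 : 4 * σ ≤ ρ ^ 2 + 3 := by
      rcases Nat.even_or_odd' ρ with ⟨k, hk | hk⟩
      · have h6 := h3 (k + 1) (by omega) (by omega)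
        have e1 : ρ - (k + 1) + 1 = k := by omega
        rw [e1] at h6
        have hc1 := ap_choose (k + 1)
        have hc2 := ap_choose k
        rw [hk]
        nlinarith
      · have h6 := h3 (k + 2) (by omega) (by omega)
        have e1 : ρ - (k + 2) + 1 = k := by omega
        rw [e1] at h6
        have hc1 := ap_choose (k + 2)
        have hc2 := ap_choose k
        rw [hk]
        nlinarith
    omega

theorem ap_large {n m ρ : ℕ} (hn : 41 ≤ n) (hρ : ρ < n) (h8 : 8 * n ≤ (ρ + 2) ^ 2)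
    (h : 2 * (n * ρ) ≤ 2 * m + ρ ^ 2 + 3) : 4 * n ^ 3 ≤ m ^ 2 := by
  have hn' : (41 : ℝ) ≤ n := by exact_mod_cast hn
  set s : ℝ := Real.sqrt (8 * n) with hs
  have hs2 : s ^ 2 = 8 * n := Real.sq_sqrt (by positivity)
  have hs0 : 0 ≤ s := Real.sqrt_nonneg _
  have hs18 : 18.1 ≤ s := by
    rw [hs]
    apply Real.le_sqrt_of_sq_le
    norm_num
    linarith
  have hρs : s ≤ ρ + 2 := by
    rw [hs]
    apply Real.sqrt_le_iff.mpr
    refine ⟨by positivity, ?_⟩
    exact_mod_cast h8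
  have hρn : (ρ : ℝ) + 1 ≤ n := by exact_mod_cast hρ
  have hR : 2 * ((n : ℝ) * ρ) ≤ 2 * m + (ρ : ℝ) ^ 2 + 3 := by exact_mod_cast h
  have hsn : s - 2 ≤ n := by linarith
  -- 2 m ≥ 2 n (s-2) - (s-2)^2 - 3
  have h1 : 2 * (n : ℝ) * (s - 2) - (s - 2) ^ 2 - 3 ≤ 2 * m := by
    nlinarith [mul_nonneg (by linarith : (0 : ℝ) ≤ ρ + 2 - s)
      (by linarith : (0 : ℝ) ≤ 2 * n - ρ - (s - 2))]
  have h2 : s ^ 3 / 4 - 3 / 2 * s ^ 2 + 4 * s - 7 ≤ 2 * m := by
    have e : (n : ℝ) = s ^ 2 / 8 := by linarith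
    rw [e] at h1
    nlinarith
  have h3 : 0.1768 * s ^ 3 ≤ 2 * m := by
    have : 0 ≤ 0.0732 * s ^ 3 - 3 / 2 * s ^ 2 + 4 * s - 7 := by
      obtain ⟨y, hy⟩ : ∃ y, s = 18.1 + y := ⟨s - 18.1, by ring⟩
      have hy0 : 0 ≤ y := by linarith
      rw [hy]
      nlinarith [pow_nonneg hy0 2, pow_nonneg hy0 3]
    linarith
  have h4 : (0.1768 * s ^ 3) ^ 2 ≤ (2 * (m : ℝ)) ^ 2 :=
    pow_le_pow_left₀ (by positivity) h3 2
  have h5 : 16 * (n : ℝ) ^ 3 ≤ (2 * (m : ℝ)) ^ 2 := by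
    refine le_trans ?_ h4
    have e : (n : ℝ) = s ^ 2 / 8 := by linarith
    rw [e]
    have : 0 ≤ s ^ 6 := by positivity
    nlinarith
  have h6 : 4 * (n : ℝ) ^ 3 ≤ (m : ℝ) ^ 2 := by nlinarith
  exact_mod_cast h6

/-- `ρ ≥ ρ₀` -/
def apR (n : ℕ) : ℕ := Nat.sqrt (8 * n - 1) - 1

theorem apR_le {n ρ : ℕ} (hn : 1 ≤ n) (h8 : 8 * n ≤ (ρ + 2) ^ 2) : apR n ≤ ρ := by
  unfold apR
  by_contra hlt
  push Not at hlt
  have h1 := Nat.sqrt_le (8 * n - 1)
  have h2 : ρ + 2 ≤ Nat.sqrt (8 * n - 1) := by omega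
  have h3 := Nat.mul_le_mul h2 h2
  have : (ρ + 2) ^ 2 = (ρ + 2) * (ρ + 2) := by ring
  omega

/-- the numbers between 8 and 43 -/
theorem apR_check : (List.range 37).all (fun i => (i.ble 0) || (i.beq 2) ||
    (2 * lbT (i + 7) + apR (i + 7) ^ 2 + 2).ble (2 * ((i + 7) * apR (i + 7)))) = true := by
  decide +kernel

theorem wAP_proof {n m ρ : ℕ} {σ β q c : ℕ} (hn : 7 ≤ n) (hρ : ρ < n) (hβ : 1 ≤ β)
    (hsec : ∃ k, 1 ≤ k ∧ k < n ∧ k + 2 * ((n - 1) / k) ≤ ρ)
    (hqc : ρ = q + c)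
    (h1 : n * β ≤ σ) (h2 : n * ρ ≤ m + σ + n * β)
    (h3 : ∀ a, q ≤ a → a ≤ ρ → σ ≤ a.choose 2 + (ρ - a + 1).choose 2)
    (h4 : c + 4 ≤ q → ∃ q', q ≤ q' ∧ q' ≤ ρ ∧ q'.choose 2 + (n - q') * β ≤ σ)
    (hm : 2 * m < n * (n + 1)) : Val n m := by
  have h8 := ap_sec (by omega) hsec
  have hR := apR_le (by omega) h8
  have hρ2 : 2 ≤ ρ := by
    by_contra hlt
    have : ρ ≤ 1 := by omega
    have h9 : (ρ + 2) ^ 2 ≤ 3 ^ 2 := Nat.pow_le_pow_left (by omega) 2
    omega
  have hmain := ap_main hρ hβ hρ2 hqc h1 h2 h3 h4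
  by_cases hn' : n ≤ 43
  · apply val_of_lbT hn hn' _ hm
    by_cases hn7 : n = 7
    · subst hn7
      have e1 : lbT 7 = 24 := by decide +kernel
      have e2 : apR 7 = 6 := by decide +kernel
      rw [e1]
      rw [e2] at hR
      obtain rfl : ρ = 6 := by omega
      by_cases hq : q ≤ 4
      · have h5 := h3 4 hq (by omega)
        norm_num [Nat.choose] at h5
        omega
      · obtain ⟨x, hx1, hx2, hx3⟩ := h4 (by omega)
        have h5 := h3 x hx1 hx2
        have hx5 : 5 ≤ x := by omega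
        interval_cases x
        · norm_num [Nat.choose] at h5 hx3
          omega
        · norm_num [Nat.choose] at h5 hx3
          omega
    · by_cases hn9 : n = 9
      · subst hn9
        have e1 : lbT 9 = 38 := by decide +kernel
        have e2 : apR 9 = 7 := by decide +kernel
        rw [e1]
        rw [e2] at hR
        by_cases hq : q ≤ 5
        · have h5 := h3 5 hq (by omega)
          have h6 : ρ = 7 ∨ ρ = 8 := by omega
          rcases h6 with rfl | rfl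
          · norm_num [Nat.choose] at h5
            omega
          · norm_num [Nat.choose] at h5
            omega
        · obtain ⟨x, hx1, hx2, hx3⟩ := h4 (by omega)
          have h5 := h3 x hx1 hx2
          have hx5 : 6 ≤ x := by omega
          have hx6 : x ≤ 8 := by omega
          have h6 : ρ = 7 ∨ ρ = 8 := by omega
          rcases h6 with rfl | rfl
          · interval_cases x
            all_goals
              norm_num [Nat.choose] at h5 hx3
              omega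
          · interval_cases x
            all_goals
              norm_num [Nat.choose] at h5 hx3
              omega
      · have h9 := apR_check
        rw [List.all_eq_true] at h9
        have h10 := h9 (n - 7) (List.mem_range.mpr (by omega))
        rw [show n - 7 + 7 = n by omega] at h10
        rw [Bool.or_eq_true, Bool.or_eq_true] at h10
        rcases h10 with (h10 | h10) | h10
        · have := Nat.le_of_ble_eq_true h10
          omega
        · have := Nat.eq_of_beq_eq_true h10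
          omega
        · have h11 := Nat.le_of_ble_eq_true h10
          by_contra hlt
          push Not at hlt
          -- 2 n ρ - ρ² ≥ 2 n R - R²
          have h12 : 2 * (n * apR n) + ρ ^ 2 ≤ 2 * (n * ρ) + apR n ^ 2 := by
            zify at hR hρ ⊢
            nlinarith [mul_nonneg (by linarith : (0 : ℤ) ≤ (ρ : ℤ) - apR n)
              (by linarith : (0 : ℤ) ≤ 2 * (n : ℤ) - ρ - apR n)]
          omega
  · exact wN2 (ap_large (by omega) hρ h8 hmain) (by nlinarith)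

end Pool.Agent.Lib_helper97.Ebe
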