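import Pool.Agent.Lib_helper8.Ebe.Tab

/-!
# Block `wAQ`
-/

namespace Pool.Agent.Lib_helper97.Ebe

open MvPolynomial Module Pool.Agent.Lib_helper26.Ebe Pool.Agent.Lib_helper26.SOS

theorem aq_u {n ρ q c : ℕ} {u : ℕ → ℕ} (hq : QSeq ρ n u q) (hρ : n ≤ ρ) (hqc : ρ = q + c)
    {c' : ℕ} (hc : c' ≤ c) {j : ℕ} (hj : 1 ≤ j) (hjn : j + c' ≤ n) :
    2 * j ≤ u j + 1 ∨ j + c' ≤ u j := by
  rcases Nat.lt_or_ge q j with h | h
  · right
    rw [hq.htop j h.le]
    omega
  · rcases hq.hor j hj h with h1 | h1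
    · left
      exact h1
    · right
      omega

theorem aq_E {n t : ℕ} {r u : ℕ → ℕ} {E : ℕ → ℕ → ℕ} (hE : ESeq n r u t E) (hn : 7 ≤ n)
    (hu1 : u 1 = 1) {c' : ℕ} (hc3 : c' ≤ 3)
    (hu : ∀ j, 1 ≤ j → j + c' ≤ n → 2 * j ≤ u j + 1 ∨ j + c' ≤ u j) :
    ∀ i, 1 ≤ i → i + t ≤ n → 2 * i + 1 ≤ n → 2 * i ≤ E i (i + 1) + 1 ∨ i + c' ≤ E i (i + 1) := by
  intro i
  induction i with
  | zero => intro h; omega
  | succ i ih =>
    intro _ h1 h2
    by_cases hi : i = 0
    · subst hi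
      left
      have h3 := hE.hfull 1 le_rfl h1
      have h4 := hE.hmono 1 1 (by omega)
      have h5 := hE.hgrow 1 1 (by omega)
      rw [h3, hu1] at h5
      simp only [zero_add] at *
      by_cases h6 : E 1 1 < 1
      · have := h5 h6
        omega
      · omega
    · have ih' := ih (by omega) (by omega) (by omega)
      rw [hE.hsym i (i + 1) (by omega)] at ih'
      have h3 := hE.hfull (i + 1) (by omega) h1
      have h4 := hE.hmono (i + 1) i (by omega)
      have h5 := hE.hmono (i + 1) (i + 1) (by omega)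
      have h6 := hE.hgrow (i + 1) i (by omega)
      have h7 := hE.hgrow (i + 1) (i + 1) (by omega)
      rw [h3] at h6 h7
      have h8 := hu (i + 1) (by omega) (by omega)
      by_cases h9 : E (i + 1) (i + 1 + 1) < u (i + 1)
      · have h10 := h6 (by omega)
        have h11 := h7 (by omega)
        omega
      · omega

theorem aq_mono {n t : ℕ} {r u : ℕ → ℕ} {E : ℕ → ℕ → ℕ} (hE : ESeq n r u t E) (i j d : ℕ)
    (h : i + (j + d) ≤ n) : E i j ≤ E i (j + d) := by
  induction d with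
  | zero => exact le_rfl
  | succ d ih =>
    exact (ih (by omega)).trans (hE.hmono i (j + d) (by omega))

theorem aq_seq {s : ℕ → ℤ} (h0 : s 0 = 0) {L c' : ℕ}
    (h : ∀ j, 1 ≤ j → j ≤ L → s (j - 1) + 2 * j ≤ s j + 1 ∨ s (j - 1) + j + c' ≤ s j) :
    ∀ j, j ≤ L → (j : ℤ) ^ 2 + (2 * c' + 1) * j ≤ 2 * s j + c' * (c' + 1) := by
  have key : ∀ j, j ≤ L → (j ≤ c' + 1 → (j : ℤ) ^ 2 ≤ s j) ∧
      ((j : ℤ) ^ 2 + (2 * c' + 1) * j ≤ 2 * s j + c' * (c' + 1)) := by
    intro j
    induction j with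
    | zero =>
      intro _
      refine ⟨fun _ => by simp [h0], ?_⟩
      simp only [h0]
      push_cast
      nlinarith [Int.natCast_nonneg c']
    | succ j ih =>
      intro hj
      obtain ⟨ih1, ih2⟩ := ih (by omega)
      have h1 := h (j + 1) (by omega) hj
      rw [Nat.add_sub_cancel] at h1
      push_cast at h1 ⊢
      by_cases hc : j + 1 ≤ c' + 1
      · have hc' : (j : ℤ) ≤ c' := by exact_mod_cast (by omega : j ≤ c')
        have h2 : ((j : ℤ) + 1) ^ 2 ≤ s (j + 1) := by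
          have := ih1 (by omega)
          rcases h1 with h1 | h1 <;> nlinarith
        refine ⟨fun _ => h2, ?_⟩
        have h3 : 0 ≤ ((j : ℤ) + 1 - c') * ((j : ℤ) - c') := by
          rcases hc'.lt_or_eq with h4 | h4
          · exact mul_nonneg_of_nonpos_of_nonpos (by linarith) (by linarith)
          · rw [h4]
            simp
        nlinarith
      · refine ⟨fun h => absurd h (by omega), ?_⟩
        have hc' : (c' : ℤ) + 1 ≤ j := by exact_mod_cast (by omega : c' + 1 ≤ j)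
        have h3 : s j + (j + 1) + c' ≤ s (j + 1) := by
          rcases h1 with h1 | h1 <;> linarith
        nlinarith
  exact fun j hj => (key j hj).2

/-- the bound for `c' + 1 ≤ p` -/
theorem aq_big {n m t : ℕ} {r u : ℕ → ℕ} {E : ℕ → ℕ → ℕ} (hn : 7 ≤ n)
    (hE : ESeq n r u t E) (hu1 : u 1 = 1) (hr1 : r 1 = 1) (hr0 : r 0 = 0)
    (hrn : r n = m) {c' : ℕ} (hc3 : c' ≤ 3) (hc1 : 1 ≤ c')
    (hu : ∀ j, 1 ≤ j → j + c' ≤ n → 2 * j ≤ u j + 1 ∨ j + c' ≤ u j)
    {p : ℕ} (hp : p + t = n) (hpc : c' + 1 ≤ p) {L : ℕ} (hL : L ≤ p) (hLn : L + c' ≤ n) :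
    (t : ℤ) ^ 2 + (2 * c' + 1) * t ≤ 2 * r t + c' * (c' + 1) ∧
    (L : ℤ) ^ 2 + (2 * c' + 1) * L ≤ 2 * ((m : ℤ) - r (n - L)) + c' * (c' + 1) := by
  have ht1 := hE.hs1
  constructor
  · refine aq_seq (s := fun j => (r j : ℤ)) (by simp [hr0]) (L := t) (c' := c') ?_ t le_rfl
    intro j hj1 hjt
    by_cases h1 : j = 1
    · subst h1
      left
      simp [hr0, hr1]
    · by_cases h2 : j ≤ p
      · have h3 := hE.hlo j hj1 (by omega)
        have h4 := hu j hj1 (by omega)
        rcases h4 with h4 | h4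
        · left
          exact_mod_cast (by omega : r (j - 1) + 2 * j ≤ r j + 1)
        · right
          exact_mod_cast (by omega : r (j - 1) + j + c' ≤ r j)
      · right
        have h3 := hE.hmid j p (by omega) hjt (by omega)
        have h4 := aq_E hE hn hu1 hc3 hu p (by omega) (by omega) (by omega)
        have h5 := aq_mono hE p (p + 1) (n - j + 1 - (p + 1)) (by omega)
        rw [show p + 1 + (n - j + 1 - (p + 1)) = n - j + 1 by omega] at h5
        exact_mod_cast (by omega : r (j - 1) + j + c' ≤ r j)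
  · refine aq_seq (s := fun l => (m : ℤ) - r (n - l)) (by simp [hrn]) (L := L) (c' := c') ?_ L
      le_rfl
    intro l hl1 hlL
    have h3 := hE.hhi (n - l + 1) (by omega) (by omega)
    rw [show n - l + 1 - 1 = n - l by omega, show n - (n - l + 1) + 1 = l by omega] at h3
    rw [show n - (l - 1) = n - l + 1 by omega]
    have h4 := hu l hl1 (by omega)
    rcases h4 with h4 | h4
    · left
      have h5 : r (n - l) + 2 * l ≤ r (n - l + 1) + 1 := by omega
      have h6 : (r (n - l) : ℤ) + 2 * l ≤ r (n - l + 1) + 1 := by exact_mod_cast h5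
      linarith
    · right
      have h5 : r (n - l) + l + c' ≤ r (n - l + 1) := by omega
      have h6 : (r (n - l) : ℤ) + l + c' ≤ r (n - l + 1) := by exact_mod_cast h5
      linarith

theorem aq_chain {r : ℕ → ℕ} {a b : ℕ} (hab : a ≤ b)
    (h : ∀ j, a < j → j ≤ b → r (j - 1) + (j + 1) ≤ r j) :
    2 * r a + b * (b + 3) ≤ 2 * r b + a * (a + 3) := by
  induction b, hab using Nat.le_induction with
  | base => exact le_rfl
  | succ b hb ih =>
    have h1 := ih (fun j h1 h2 => h j h1 (by omega))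
    have h2 := h (b + 1) (by omega) le_rfl
    rw [Nat.add_sub_cancel] at h2
    nlinarith

theorem aq_zero {n m : ℕ} {r u : ℕ → ℕ} {E : ℕ → ℕ → ℕ} (hn : 7 ≤ n)
    (hE : ESeq n r u n E) (hr1 : r 1 = 1) (hrn : r n = m)
    (hL : ∀ j, 3 ≤ j → j + 1 ≤ n → r (j - 1) + (j + 1) ≤ r j) : n * (n + 1) ≤ 2 * m := by
  have h2 := hE.hmid 2 0 le_rfl (by omega) (by omega)
  rw [show 2 - 1 = 1 by rfl, hr1] at h2
  have h3 := aq_chain (r := r) (a := 2) (b := n - 1) (by omega)
    (fun j h1 h2 => hL j (by omega) (by omega))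
  have h4 := hE.hmid n 0 (by omega) le_rfl (by omega)
  obtain ⟨k, rfl⟩ : ∃ k, n = k + 1 := ⟨n - 1, by omega⟩
  rw [Nat.add_sub_cancel] at h3 h4
  nlinarith

theorem aq_one {n m t : ℕ} {r u : ℕ → ℕ} {E : ℕ → ℕ → ℕ} (hn : 7 ≤ n) (ht : 1 + t = n)
    (hE : ESeq n r u t E) (hu1 : u 1 = 1) (hr1 : r 1 = 1) (hrn : r n = m)
    (hL : ∀ j, 3 ≤ j → j + 1 ≤ t → r (j - 1) + (j + 1) ≤ r j) : n * (n + 1) ≤ 2 * m + 6 := by
  have h2 := hE.hmid 2 0 le_rfl (by omega) (by omega)
  rw [show 2 - 1 = 1 by rfl, hr1] at h2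
  have h3 := aq_chain (r := r) (a := 2) (b := n - 2) (by omega)
    (fun j h1 h2 => hL j (by omega) (by omega))
  have h4 := hE.hmid (n - 1) 0 (by omega) (by omega) (by omega)
  have h5 := hE.hhi n (by omega) le_rfl
  rw [show n - n + 1 = 1 by omega, hu1, hrn] at h5
  obtain ⟨k, rfl⟩ : ∃ k, n = k + 2 := ⟨n - 2, by omega⟩
  rw [Nat.add_sub_cancel] at h3
  rw [show k + 2 - 1 = k + 1 by omega] at h4 h5
  rw [Nat.add_sub_cancel] at h4
  nlinarith

theorem aq_two_steps {n m t : ℕ} {r u : ℕ → ℕ} {E : ℕ → ℕ → ℕ} (hn : 7 ≤ n) (ht : 2 + t = n)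
    (hE : ESeq n r u t E) (hu1 : u 1 = 1) (hr1 : r 1 = 1) (hrn : r n = m)
    (hu : ∀ j, 1 ≤ j → j + 2 ≤ n → 2 * j ≤ u j + 1 ∨ j + 2 ≤ u j)
    (hL : ∀ j, 3 ≤ j → j + 1 ≤ t → r (j - 1) + (j + 1) ≤ r j) :
    4 ≤ r 2 ∧ (∀ j, 2 < j → j ≤ n - 2 → r (j - 1) + (j + 1) ≤ r j) ∧ r (n - 2) + 4 ≤ m := by
  have hu2 : 3 ≤ u 2 := by
    have := hu 2 (by omega) (by omega)
    omega
  have h2 := hE.hlo 2 (by omega) (by omega)
  rw [show 2 - 1 = 1 by rfl, hr1] at h2
  refine ⟨by omega, ?_, ?_⟩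
  · intro j hj1 hj2
    by_cases h3 : j + 1 ≤ t
    · exact hL j (by omega) h3
    · have hj : j = n - 2 := by omega
      have h4 := hE.hmid j 2 (by omega) (by omega) (by omega)
      rw [show n - j + 1 = 3 by omega] at h4
      have h5 := aq_E hE hn hu1 (c' := 2) (by omega) hu 2 (by omega) (by omega) (by omega)
      rw [show 2 + 1 = 3 by rfl] at h5
      omega
  · have h5 := hE.hhi n (by omega) le_rfl
    rw [show n - n + 1 = 1 by omega, hu1, hrn] at h5
    have h6 := hE.hhi (n - 1) (by omega) (by omega)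
    rw [show n - (n - 1) + 1 = 2 by omega, show n - 1 - 1 = n - 2 by omega] at h6
    omega

theorem aq_two {n m t : ℕ} {r u : ℕ → ℕ} {E : ℕ → ℕ → ℕ} (hn : 7 ≤ n) (ht : 2 + t = n)
    (hE : ESeq n r u t E) (hu1 : u 1 = 1) (hr1 : r 1 = 1) (hrn : r n = m)
    (hu : ∀ j, 1 ≤ j → j + 2 ≤ n → 2 * j ≤ u j + 1 ∨ j + 2 ≤ u j)
    (hL : ∀ j, 3 ≤ j → j + 1 ≤ t → r (j - 1) + (j + 1) ≤ r j) : n * n + 4 ≤ 2 * m + n := by
  obtain ⟨h1, h2, h3⟩ := aq_two_steps hn ht hE hu1 hr1 hrn hu hL
  have h4 := aq_chain (r := r) (a := 2) (b := n - 2) (by omega) h2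
  obtain ⟨k, rfl⟩ : ∃ k, n = k + 2 := ⟨n - 2, by omega⟩
  rw [Nat.add_sub_cancel] at h3 h4
  nlinarith

theorem aq_last {n m ρ q c : ℕ} {r u : ℕ → ℕ} {E : ℕ → ℕ → ℕ} (hn : 7 ≤ n) (hρ : n ≤ ρ)
    (hE : ESeq n r u 1 E) (hq : QSeq ρ n u q) (hu1 : u 1 = 1) (hr1 : r 1 = 1) (hr0 : r 0 = 0)
    (hrn : r n = m) (hqc : ρ = q + c) (hc : 2 ≤ c)
    (hu : ∀ j, 1 ≤ j → j + 2 ≤ n → 2 * j ≤ u j + 1 ∨ j + 2 ≤ u j) : n * (n + 1) ≤ 2 * m := by
  obtain ⟨_, h2⟩ := aq_big (m := m) hn hE hu1 hr1 hr0 hrn (c' := 2) (by omega) (by omega) hu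
    (p := n - 1) (by omega) (by omega) (L := n - 2) (by omega) (by omega)
  rw [show n - (n - 2) = 2 by omega] at h2
  have h3 := hE.hhi 2 (by omega) (by omega)
  rw [show 2 - 1 = 1 by rfl, hr1, show n - 2 + 1 = n - 1 by omega] at h3
  have h4 : n ≤ u (n - 1) := by
    rcases Nat.lt_or_ge q n with h | h
    · rw [hq.htop (n - 1) (by omega)]
      exact hρ
    · rcases hq.hor (n - 1) (by omega) (by omega) with h1 | h1
      · omega
      · omega
  have h5 : (n : ℤ) + 1 ≤ r 2 := by exact_mod_cast (by omega : n + 1 ≤ r 2)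
  obtain ⟨k, rfl⟩ : ∃ k, n = k + 2 := ⟨n - 2, by omega⟩
  rw [Nat.add_sub_cancel] at h2
  push_cast at h2 h5
  zify
  have hk : (5 : ℤ) ≤ k := by exact_mod_cast (by omega : 5 ≤ k)
  nlinarith

theorem aq_par {p t n : ℕ} (hp : p + t = n) : n * n + n % 2 ≤ 2 * (p * p) + 2 * (t * t) := by
  rcases lt_trichotomy p t with h | h | h
  · obtain ⟨d, rfl⟩ : ∃ d, t = p + 1 + d := ⟨t - (p + 1), by omega⟩
    have h1 : n % 2 ≤ 1 := by omega
    have h2 : n * n + 1 ≤ 2 * (p * p) + 2 * ((p + 1 + d) * (p + 1 + d)) := by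
      rw [← hp]
      nlinarith
    omega
  · subst h
    have h1 : n % 2 = 0 := by omega
    rw [h1, ← hp]
    apply le_of_eq
    ring
  · obtain ⟨d, rfl⟩ : ∃ d, p = t + 1 + d := ⟨p - (t + 1), by omega⟩
    have h1 : n % 2 ≤ 1 := by omega
    have h2 : n * n + 1 ≤ 2 * ((t + 1 + d) * (t + 1 + d)) + 2 * (t * t) := by
      rw [← hp]
      nlinarith
    omega

theorem aq_Q1 {n m : ℕ} (hn : 8 ≤ n) (h : n * (n + 1) ≤ 2 * m + 6) :
    n * n + 10 * n + n % 2 ≤ 4 * m + 24 := by
  have h1 : n % 2 ≤ 1 := by omega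
  obtain ⟨k, rfl⟩ : ∃ k, n = k + 8 := ⟨n - 8, by omega⟩
  nlinarith

theorem aq_Q2 {n m : ℕ} (hn : 8 ≤ n) (h : n * n + 4 ≤ 2 * m + n) :
    n * n + 10 * n + n % 2 ≤ 4 * m + 24 := by
  rcases hn.lt_or_eq with h9 | h9
  · have h1 : n % 2 ≤ 1 := by omega
    obtain ⟨k, rfl⟩ : ∃ k, n = k + 9 := ⟨n - 9, by omega⟩
    nlinarith
  · subst h9
    omega

theorem aq_Q3 {n m : ℕ} (hn : 44 ≤ n) (h : n * n + 10 * n + n % 2 ≤ 4 * m + 24) :
    4 * n ^ 3 ≤ m ^ 2 := by
  have h0 : n * n + 10 * n ≤ 4 * m + 24 := by omega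
  have h1 : (n : ℤ) * n + 10 * n - 24 ≤ 4 * m := by
    zify at h0
    linarith
  have h2 : (44 : ℤ) ≤ n := by exact_mod_cast hn
  have h2' : (0 : ℤ) ≤ (n : ℤ) * n + 10 * n - 24 := by nlinarith
  have h3 : ((n : ℤ) * n + 10 * n - 24) ^ 2 ≤ (4 * (m : ℤ)) ^ 2 :=
    pow_le_pow_left₀ h2' h1 2
  have h4 : 64 * (n : ℤ) ^ 3 ≤ ((n : ℤ) * n + 10 * n - 24) ^ 2 := by
    have e : ((n : ℤ) * n + 10 * n - 24) ^ 2 - 64 * (n : ℤ) ^ 3 =
        (n : ℤ) ^ 3 * (n - 44) + n * (52 * n - 480) + 576 := by ring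
    have h5 : 0 ≤ (n : ℤ) ^ 3 * (n - 44) := by
      apply mul_nonneg (by positivity)
      linarith
    have h6 : 0 ≤ (n : ℤ) * (52 * n - 480) := by
      apply mul_nonneg (by linarith)
      linarith
    linarith
  have h7 : 4 * (n : ℤ) ^ 3 ≤ (m : ℤ) ^ 2 := by
    have e : (4 * (m : ℤ)) ^ 2 = 16 * (m : ℤ) ^ 2 := by ring
    rw [e] at h3
    linarith
  exact_mod_cast h7

/-- the finite check -/
theorem aq_check : (List.range 36).all (fun i => (i.beq 1) || (i.beq 7) || (i.beq 8) ||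
    (4 * lbT (i + 8) + 21).ble ((i + 8) * (i + 8) + 10 * (i + 8) + (i + 8) % 2)) = true := by
  decide +kernel

theorem wAQ_proof {n m ρ : ℕ} {q c t : ℕ} {r u : ℕ → ℕ} {E : ℕ → ℕ → ℕ} (hn : 7 ≤ n) (hρ : n ≤ ρ)
    (hE : ESeq n r u t E) (hq : QSeq ρ n u q) (hu1 : u 1 = 1) (hr1 : r 1 = 1) (hr0 : r 0 = 0)
    (hrn : r n = m)
    (hqc : ρ = q + c) (hc : 2 ≤ c)
    (hc2 : c = 2 → n ≠ 9 ∧ n ≠ 15 ∧ n ≠ 16)
    (hL : ∀ j, 3 ≤ j → j + 1 ≤ t → r (j - 1) + (j + 1) ≤ r j)
    (hm : 2 * m < n * (n + 1)) :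
    Val n m ∨ (n = 7 ∧ m = 23 ∧ t = 5 ∧ r 2 = 4 ∧ r 3 = 8 ∧ r 4 = 13 ∧ r 5 = 19) := by
  have hu : ∀ j, 1 ≤ j → j + 2 ≤ n → 2 * j ≤ u j + 1 ∨ j + 2 ≤ u j := fun j hj hjn =>
    aq_u hq hρ hqc hc hj hjn
  have ht := hE.hs
  have ht1 := hE.hs1
  obtain ⟨p, hp⟩ : ∃ p, p + t = n := ⟨n - t, by omega⟩
  -- the exceptional cases `p = 0` and `p = n - 1`
  have hp0 : p ≠ 0 := by
    rintro rfl
    obtain rfl : t = n := by omega
    have := aq_zero hn hE hr1 hrn hL
    omega
  have hpn : p + 2 ≤ n := by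
    by_contra hlt
    obtain rfl : t = 1 := by omega
    have := aq_last hn hρ hE hq hu1 hr1 hr0 hrn hqc hc hu
    omega
  -- the main estimate
  have hbig : 3 ≤ p → p * p + 5 * p + (t * t + 5 * t) ≤ 2 * m + 12 := by
    intro hp3
    obtain ⟨h1, h2⟩ := aq_big (m := m) hn hE hu1 hr1 hr0 hrn (c' := 2) (by omega) (by omega) hu
      (p := p) hp (by omega) (L := p) le_rfl (by omega)
    rw [show n - p = t by omega] at h2
    push_cast at h1 h2
    zify
    nlinarith
  have hbig3 : 3 ≤ c → 4 ≤ p → p + 3 ≤ n → p * p + 7 * p + (t * t + 7 * t) ≤ 2 * m + 24 := by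
    intro hc3 hp4 hpn3
    have hu3 : ∀ j, 1 ≤ j → j + 3 ≤ n → 2 * j ≤ u j + 1 ∨ j + 3 ≤ u j := fun j hj hjn =>
      aq_u hq hρ hqc hc3 hj hjn
    obtain ⟨h1, h2⟩ := aq_big (m := m) hn hE hu1 hr1 hr0 hrn (c' := 3) (by omega) (by omega) hu3
      (p := p) hp (by omega) (L := p) le_rfl (by omega)
    rw [show n - p = t by omega] at h2
    push_cast at h1 h2
    zify
    nlinarith
  by_cases hn7 : n = 7
  · subst hn7
    have e1 : lbT 7 = 24 := by decide +kernel
    by_cases hm24 : 24 ≤ m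
    · left
      exact val_of_lbT le_rfl (by omega) (by rw [e1]; exact hm24) hm
    · right
      have hp3 : p ≤ 2 := by
        by_contra hlt
        have h1 := hbig (by omega)
        have hp5 : p ≤ 5 := by omega
        have hp3 : 3 ≤ p := by omega
        interval_cases p
        · obtain rfl : t = 4 := by omega
          omega
        · obtain rfl : t = 3 := by omega
          omega
        · obtain rfl : t = 2 := by omega
          omega
      have hp1 : p ≠ 1 := by
        rintro rfl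
        have := aq_one hn hp hE hu1 hr1 hrn hL
        omega
      obtain rfl : p = 2 := by omega
      obtain rfl : t = 5 := by omega
      obtain ⟨h1, h2, h3⟩ := aq_two_steps hn hp hE hu1 hr1 hrn hu hL
      have h4 := h2 3 (by omega) (by omega)
      have h5 := h2 4 (by omega) (by omega)
      have h6 := h2 5 (by omega) (by omega)
      norm_num at h3 h4 h5 h6
      omega
  · left
    have h8 : 8 ≤ n := by omega
    -- `4 m + 24 ≥ n² + 10 n + n % 2`
    have hmod : n % 2 ≤ 1 := by omega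
    have hQ : n * n + 10 * n + n % 2 ≤ 4 * m + 24 := by
      by_cases hp3 : 3 ≤ p
      · have h1 := hbig hp3
        have h2 := aq_par hp
        omega
      · have h1 : p = 1 ∨ p = 2 := by omega
        rcases h1 with rfl | rfl
        · exact aq_Q1 h8 (aq_one hn hp hE hu1 hr1 hrn hL)
        · exact aq_Q2 h8 (aq_two hn hp hE hu1 hr1 hrn hu hL)
    by_cases hn43 : n ≤ 43
    · apply val_of_lbT hn hn43 _ hm
      by_cases hsp : n = 9 ∨ n = 15 ∨ n = 16
      · have hc3 : 3 ≤ c := by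
          by_contra hlt
          have h1 : c = 2 := by omega
          have h2 := hc2 h1
          omega
        have hcases : p = 1 ∨ p = 2 ∨ p = 3 ∨ (4 ≤ p ∧ p + 3 ≤ n) ∨ p + 2 = n := by omega
        rcases hcases with rfl | rfl | rfl | ⟨h4, h5⟩ | h4
        · have h2 := aq_one hn hp hE hu1 hr1 hrn hL
          rcases hsp with rfl | rfl | rfl
          · have e : lbT 9 = 38 := by decide +kernel
            omega
          · have e : lbT 15 = 92 := by decide +kernel
            omega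
          · have e : lbT 16 = 99 := by decide +kernel
            omega
        · have h2 := aq_two hn hp hE hu1 hr1 hrn hu hL
          rcases hsp with rfl | rfl | rfl
          · have e : lbT 9 = 38 := by decide +kernel
            omega
          · have e : lbT 15 = 92 := by decide +kernel
            omega
          · have e : lbT 16 = 99 := by decide +kernel
            omega
        · have h2 := hbig (by omega)
          rcases hsp with rfl | rfl | rfl
          · have e : lbT 9 = 38 := by decide +kernel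
            obtain rfl : t = 6 := by omega
            omega
          · have e : lbT 15 = 92 := by decide +kernel
            obtain rfl : t = 12 := by omega
            omega
          · have e : lbT 16 = 99 := by decide +kernel
            obtain rfl : t = 13 := by omega
            omega
        · have h6 := hbig3 hc3 h4 h5
          have h7 := aq_par hp
          rcases hsp with rfl | rfl | rfl
          · have e : lbT 9 = 38 := by decide +kernel
            omega
          · have e : lbT 15 = 92 := by decide +kernel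
            omega
          · have e : lbT 16 = 99 := by decide +kernel
            omega
        · have h2 := hbig (by omega)
          rcases hsp with rfl | rfl | rfl
          · have e : lbT 9 = 38 := by decide +kernel
            obtain rfl : t = 2 := by omega
            obtain rfl : p = 7 := by omega
            omega
          · have e : lbT 15 = 92 := by decide +kernel
            obtain rfl : t = 2 := by omega
            obtain rfl : p = 13 := by omega
            omega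
          · have e : lbT 16 = 99 := by decide +kernel
            obtain rfl : t = 2 := by omega
            obtain rfl : p = 14 := by omega
            omega
      · have h9 := aq_check
        rw [List.all_eq_true] at h9
        have h10 := h9 (n - 8) (List.mem_range.mpr (by omega))
        rw [show n - 8 + 8 = n by omega] at h10
        rw [Bool.or_eq_true, Bool.or_eq_true, Bool.or_eq_true] at h10
        rcases h10 with ((h10 | h10) | h10) | h10
        · have := Nat.eq_of_beq_eq_true h10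
          omega
        · have := Nat.eq_of_beq_eq_true h10
          omega
        · have := Nat.eq_of_beq_eq_true h10
          omega
        · have h11 := Nat.le_of_ble_eq_true h10
          omega
    · exact wN2 (aq_Q3 (by omega) hQ) (by nlinarith)

end Pool.Agent.Lib_helper97.Ebe
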