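import Pool.Agent.Lib_helper97.Ebe.XOK

/-!
# Table of values for the arithmetic blocks `wAP`, `wAQ`
-/

namespace Pool.Agent.Lib_helper97.Ebe

open MvPolynomial Module Pool.Agent.Lib_helper26.Ebe Pool.Agent.Lib_helper26.SOS

/-- `a (a - 1) / 2` -/
def tabC2 (a : ℕ) : ℕ := a * (a - 1) / 2

theorem tabC2_eq (a : ℕ) : tabC2 a = a.choose 2 := by
  rw [Nat.choose_two_right]
  rfl

/-- search for a representation of `d` -/
def tabRep (κ d : ℕ) : Bool :=
  (List.range (κ + 1)).any fun a => (tabC2 a).ble d &&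
    (List.range (κ + 1 - a)).any fun c => (c + 1).ble a && (tabC2 c).ble (d - tabC2 a) &&
      (d - tabC2 a - tabC2 c).ble c

/-- boolean version of `Val` -/
def tabVal (n m : ℕ) : Bool :=
  (List.range (n + 1)).any fun κ => m.ble (κ * n) && tabRep κ (κ * n - m)

theorem tabVal_sound {n m : ℕ} (h : tabVal n m = true) : Val n m := by
  unfold tabVal at h
  rw [List.any_eq_true] at h
  obtain ⟨κ, hκ, h⟩ := h
  rw [Bool.and_eq_true] at h
  obtain ⟨h1, h2⟩ := h
  unfold tabRep at h2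
  rw [List.any_eq_true] at h2
  obtain ⟨a, ha, h2⟩ := h2
  rw [Bool.and_eq_true] at h2
  obtain ⟨h2, h3⟩ := h2
  rw [List.any_eq_true] at h3
  obtain ⟨c, hc, h3⟩ := h3
  rw [Bool.and_eq_true, Bool.and_eq_true] at h3
  obtain ⟨⟨h3, h4⟩, h5⟩ := h3
  rw [List.mem_range] at hκ ha hc
  have h1' := Nat.le_of_ble_eq_true h1
  have h2' := Nat.le_of_ble_eq_true h2
  have h3' := Nat.le_of_ble_eq_true h3
  have h4' := Nat.le_of_ble_eq_true h4
  have h5' := Nat.le_of_ble_eq_true h5
  rw [tabC2_eq] at h2' h4' h5'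
  rw [tabC2_eq] at h4' h5'
  right
  refine ⟨κ, a, c, κ * n - m - a.choose 2 - c.choose 2, h5', by omega, by omega, by omega, ?_⟩
  omega

/-- all `m` with `lo ≤ m < hi` -/
def tabAll (n lo hi : ℕ) : Bool := (List.range (hi - lo)).all fun i => tabVal n (lo + i)

theorem tabAll_sound {n lo hi m : ℕ} (h : tabAll n lo hi = true) (h1 : lo ≤ m) (h2 : m < hi) :
    Val n m := by
  unfold tabAll at h
  rw [List.all_eq_true] at h
  have := h (m - lo) (List.mem_range.mpr (by omega))
  rw [show lo + (m - lo) = m by omega] at this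
  exact tabVal_sound this

/-- lower ends for `7 ≤ n ≤ 43` -/
def lbT (n : ℕ) : ℕ := [24, 29, 38, 44, 52, 60, 69, 78, 92, 99, 109, 120, 132, 144, 157, 170, 184,
  198, 213, 228, 244, 260, 277, 294, 312, 330, 349, 368, 388, 408, 429, 450, 472, 494, 517, 540,
  564].getD (n - 7) 0

/-- upper ends for `7 ≤ n ≤ 43` -/
def hiT (n : ℕ) : ℕ := [28, 36, 45, 55, 66, 78, 91, 105, 117, 128, 141, 153, 166, 179, 193, 207,
  221, 236, 250, 266, 281, 297, 313, 329, 346, 363, 380, 397, 415, 432, 451, 469, 488, 506, 526,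
  545, 564].getD (n - 7) 0

/-- the finite check -/
def tabCheck (n : ℕ) : Bool :=
  tabAll n (lbT n) (hiT n) && ((4 * n ^ 3).ble (hiT n * hiT n) || (n * (n + 1)).ble (2 * hiT n))

theorem tabCheck_all : (List.range 37).all (fun i => tabCheck (i + 7)) = true := by
  decide +kernel

theorem val_of_lbT {n m : ℕ} (hn : 7 ≤ n) (hn' : n ≤ 43) (h : lbT n ≤ m)
    (hm : 2 * m < n * (n + 1)) : Val n m := by
  have h1 := tabCheck_all
  rw [List.all_eq_true] at h1
  have h2 := h1 (n - 7) (List.mem_range.mpr (by omega))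
  rw [show n - 7 + 7 = n by omega] at h2
  unfold tabCheck at h2
  rw [Bool.and_eq_true, Bool.or_eq_true] at h2
  obtain ⟨h3, h4⟩ := h2
  by_cases h5 : m < hiT n
  · exact tabAll_sound h3 h h5
  · push Not at h5
    apply wN2
    · rcases h4 with h4 | h4
      · have h6 := Nat.le_of_ble_eq_true h4
        calc 4 * n ^ 3 ≤ hiT n * hiT n := h6
          _ ≤ m * m := Nat.mul_le_mul h5 h5
          _ = m ^ 2 := by ring
      · have h6 := Nat.le_of_ble_eq_true h4
        omega
    · nlinarith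

end Pool.Agent.Lib_helper97.Ebe
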